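import Pool.Agent.R986.BP.Fin

/-!
# MP_ceed31_pr, Q1: exact asymptotics of the mean waiting time for bridge patterns

Let `ξ_0, ξ_1, …` be i.i.d. steps `±1` with probability `1/2`, `RW_k = ξ_0 + ⋯ + ξ_{k-1}`, and let
`T` be the first time `k ≥ n` with `RW_k - RW_{k-n} = λ_n`, the waiting time of the bridge pattern
`BR^{λ,n}`. For every real `λ`,

`E T(BR^{λ,n}) / n → 1 + E F_λ < ∞`, where `F_λ = inf {t > 0 : B_{t+1} - B_t = λ}`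

for any standard Brownian motion `B`; that is `g_λ(n) = (1 + E F_λ) n`.
-/

open MeasureTheory ProbabilityTheory Filter Topology Set
open scoped ENNReal NNReal

namespace Pool.Agent.Results.MP_ceed31_pr.MeanLimit

/-- `λ_n = ⌊λ√n⌋` if this integer has the parity of `n`, and `λ_n = ⌊λ√n⌋ + 1` otherwise. -/
noncomputable def lam (l : ℝ) (n : ℕ) : ℤ :=
  if Even (⌊l * √(n : ℝ)⌋ - (n : ℤ)) then ⌊l * √(n : ℝ)⌋ else ⌊l * √(n : ℝ)⌋ + 1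

/-- The random walk `RW_k = ξ_0 + ⋯ + ξ_{k-1}`. -/
def RW {Ω : Type*} (ξ : ℕ → Ω → ℤ) (k : ℕ) (ω : Ω) : ℤ := ∑ i ∈ Finset.range k, ξ i ω

/-- The waiting time `T(BR^{λ,n})`: the first `k ≥ n` with `RW_k - RW_{k-n} = λ_n`
(`⊤` if there is none). -/
noncomputable def T {Ω : Type*} (ξ : ℕ → Ω → ℤ) (l : ℝ) (n : ℕ) (ω : Ω) : ℝ≥0∞ :=
  ⨅ (k : ℕ) (_ : n ≤ k ∧ RW ξ k ω - RW ξ (k - n) ω = lam l n), (k : ℝ≥0∞)

/-- `F_λ = inf {t > 0 : B_{t+1} - B_t = λ}` (`⊤` if there is no such `t`). -/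
noncomputable def F {Ω : Type*} (B : ℝ≥0 → Ω → ℝ) (l : ℝ) (ω : Ω) : ℝ≥0∞ :=
  ⨅ (t : ℝ≥0) (_ : 0 < t ∧ B (t + 1) ω - B t ω = l), (t : ℝ≥0∞)

/-- **The mean waiting time of the bridge pattern `BR^{λ,n}` is asymptotic to `(1 + E F_λ) n`,
for every real `λ`.** -/
theorem result {Ω : Type*} [MeasurableSpace Ω] {P : Measure Ω} {ξ : ℕ → Ω → ℤ}
    (hmeas : ∀ i, Measurable (ξ i)) (hind : iIndepFun ξ P)
    (hpos : ∀ i, P {ω | ξ i ω = 1} = 1 / 2) (hneg : ∀ i, P {ω | ξ i ω = -1} = 1 / 2)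
    {Ω' : Type*} [MeasurableSpace Ω'] {P' : Measure Ω'} {B : ℝ≥0 → Ω' → ℝ}
    (hB : IsBrownianReal B P') (l : ℝ) :
    (∫⁻ ω, F B l ω ∂P') < ⊤ ∧
    Tendsto (fun n : ℕ => (∫⁻ ω, T ξ l n ω ∂P) / n) atTop (𝓝 (1 + ∫⁻ ω, F B l ω ∂P')) := by
  have h : Pool.Agent.R974.Span.Steps ξ P := ⟨hmeas, hind, hpos, hneg⟩
  exact Pool.Agent.R986.BP.main h hB l

end Pool.Agent.Results.MP_ceed31_pr.MeanLimit
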